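import Mathlib
import Pool.Agent.Results.MP_1bffc6_nt.FareyFull

/-!
# Small monic integer polynomials near a reduced fraction `a / b`

`p / q < s / r` are the Farey parents of `a / b`: `s q - p r = 1`, `a = p + s`, `b = q + r`.
With `u = q z - p`, `v = s - r z` one has `r u + q v = 1`, and `T = v - u = a - b z`.
The polynomial `Q = u ^ r v ^ q` has degree `b` and a leading coefficient prime to `b`.
-/

set_option autoImplicit false

open Polynomial Filter Topology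

namespace Pool.Agent.Y840.FI

/-- The polynomial `u = q z - p`. -/
noncomputable def U (p : ℤ) (q : ℕ) : ℤ[X] := C (q : ℤ) * X + C (-p)

/-- The polynomial `v = s - r z`. -/
noncomputable def V (s : ℤ) (r : ℕ) : ℤ[X] := C (-(r : ℤ)) * X + C s

/-- The balanced products `Q ^ (j / b) u ^ (j % b)`. -/
noncomputable def M (p s : ℤ) (q r : ℕ) (j : ℕ) : ℤ[X] :=
  (U p q ^ r * V s r ^ q) ^ (j / (r + q)) * U p q ^ (j % (r + q))

/-- Their leading coefficients. -/
def lam (q r : ℕ) (j : ℕ) : ℤ :=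
  ((q : ℤ) ^ r * (-(r : ℤ)) ^ q) ^ (j / (r + q)) * (q : ℤ) ^ (j % (r + q))

lemma U_natDegree (p : ℤ) (q : ℕ) : (U p q).natDegree ≤ 1 := natDegree_linear_le
lemma V_natDegree (s : ℤ) (r : ℕ) : (V s r).natDegree ≤ 1 := natDegree_linear_le

lemma U_coeff (p : ℤ) (q : ℕ) : (U p q).coeff 1 = q := by
  simp only [U, coeff_add, coeff_C_mul, coeff_X_one, mul_one, coeff_C_succ, add_zero]

lemma V_coeff (s : ℤ) (r : ℕ) : (V s r).coeff 1 = -(r : ℤ) := by
  simp only [V, coeff_add, coeff_C_mul, coeff_X_one, mul_one, coeff_C_succ, add_zero]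

lemma pow_nd (P : ℤ[X]) (d k : ℕ) (h : P.natDegree ≤ d) : (P ^ k).natDegree ≤ k * d :=
  natDegree_pow_le.trans (Nat.mul_le_mul_left _ h)

lemma M_natDegree (p s : ℤ) (q r j : ℕ) : (M p s q r j).natDegree ≤ j := by
  have h1 : (U p q ^ r).natDegree ≤ r := by simpa using pow_nd _ 1 r (U_natDegree p q)
  have h2 : (V s r ^ q).natDegree ≤ q := by simpa using pow_nd _ 1 q (V_natDegree s r)
  have h3 : (U p q ^ r * V s r ^ q).natDegree ≤ r + q := natDegree_mul_le.trans (add_le_add h1 h2)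
  have h4 := pow_nd _ _ (j / (r + q)) h3
  have h5 : (U p q ^ (j % (r + q))).natDegree ≤ j % (r + q) := by
    simpa using pow_nd _ 1 (j % (r + q)) (U_natDegree p q)
  refine (natDegree_mul_le.trans (add_le_add h4 h5)).trans ?_
  rw [mul_comm, Nat.div_add_mod]

lemma M_coeff (p s : ℤ) (q r j : ℕ) : (M p s q r j).coeff j = lam q r j := by
  have h1 : (U p q ^ r).natDegree ≤ r := by simpa using pow_nd _ 1 r (U_natDegree p q)
  have h2 : (V s r ^ q).natDegree ≤ q := by simpa using pow_nd _ 1 q (V_natDegree s r)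
  have h3 : (U p q ^ r * V s r ^ q).natDegree ≤ r + q := natDegree_mul_le.trans (add_le_add h1 h2)
  have h4 := pow_nd _ _ (j / (r + q)) h3
  have h5 : (U p q ^ (j % (r + q))).natDegree ≤ j % (r + q) := by
    simpa using pow_nd _ 1 (j % (r + q)) (U_natDegree p q)
  have e1 : (U p q ^ r).coeff r = (q : ℤ) ^ r := by
    have := coeff_pow_of_natDegree_le (p := U p q) (m := r) (n := 1) (U_natDegree p q)
    simpa [U_coeff] using this
  have e2 : (V s r ^ q).coeff q = (-(r : ℤ)) ^ q := by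
    have := coeff_pow_of_natDegree_le (p := V s r) (m := q) (n := 1) (V_natDegree s r)
    simpa [V_coeff] using this
  have e3 : (U p q ^ r * V s r ^ q).coeff (r + q) = (q : ℤ) ^ r * (-(r : ℤ)) ^ q := by
    rw [coeff_mul_add_eq_of_natDegree_le h1 h2, e1, e2]
  have e4 : ((U p q ^ r * V s r ^ q) ^ (j / (r + q))).coeff ((j / (r + q)) * (r + q))
      = ((q : ℤ) ^ r * (-(r : ℤ)) ^ q) ^ (j / (r + q)) := by
    rw [coeff_pow_of_natDegree_le h3, e3]
  have e5 : (U p q ^ (j % (r + q))).coeff (j % (r + q)) = (q : ℤ) ^ (j % (r + q)) := by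
    have := coeff_pow_of_natDegree_le (p := U p q) (m := j % (r + q)) (n := 1) (U_natDegree p q)
    simpa [U_coeff] using this
  have hj : j = (j / (r + q)) * (r + q) + j % (r + q) := by
    rw [mul_comm, Nat.div_add_mod]
  have key : (M p s q r j).coeff ((j / (r + q)) * (r + q) + j % (r + q)) = lam q r j := by
    rw [M, coeff_mul_add_eq_of_natDegree_le h4 h5, e4, e5, lam]
  rwa [← hj] at key

lemma coprime_q {p s : ℤ} {q r : ℕ} (hdet : s * q - p * r = 1) :
    IsCoprime ((r : ℤ) + q) (q : ℤ) := ⟨-p, s + p, by linear_combination hdet⟩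

lemma coprime_r {p s : ℤ} {q r : ℕ} (hdet : s * q - p * r = 1) :
    IsCoprime ((r : ℤ) + q) (-(r : ℤ)) := ⟨s, s + p, by linear_combination hdet⟩

lemma coprime_lam {p s : ℤ} {q r : ℕ} (hdet : s * q - p * r = 1) (j : ℕ) :
    IsCoprime ((r : ℤ) + q) (lam q r j) := by
  have h1 := coprime_q hdet
  have h2 := coprime_r hdet
  exact ((h1.pow_right.mul_right h2.pow_right).pow_right).mul_right h1.pow_right

lemma abs_lam_le (q r j : ℕ) : |(lam q r j : ℝ)| ≤ ((r : ℝ) + q) ^ j := by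
  have hr : (0 : ℝ) ≤ r := Nat.cast_nonneg r
  have hq : (0 : ℝ) ≤ q := Nat.cast_nonneg q
  have h1 : |(lam q r j : ℝ)| = ((q : ℝ) ^ r * (r : ℝ) ^ q) ^ (j / (r + q)) * (q : ℝ) ^ (j % (r + q)) := by
    rw [lam]
    push_cast
    rw [abs_mul, abs_pow, abs_pow, abs_mul, abs_pow, abs_pow, abs_neg, Nat.abs_cast, Nat.abs_cast]
  rw [h1]
  have h2 : (q : ℝ) ^ r * (r : ℝ) ^ q ≤ ((r : ℝ) + q) ^ (r + q) := by
    rw [pow_add]
    exact mul_le_mul (pow_le_pow_left₀ hq (by linarith) _) (pow_le_pow_left₀ hr (by linarith) _)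
      (by positivity) (by positivity)
  have h3 : (q : ℝ) ^ (j % (r + q)) ≤ ((r : ℝ) + q) ^ (j % (r + q)) :=
    pow_le_pow_left₀ hq (by linarith) _
  calc _ ≤ (((r : ℝ) + q) ^ (r + q)) ^ (j / (r + q)) * ((r : ℝ) + q) ^ (j % (r + q)) := by
        refine mul_le_mul (pow_le_pow_left₀ (by positivity) h2 _) h3 (by positivity) (by positivity)
    _ = ((r : ℝ) + q) ^ j := by
        rw [← pow_mul, ← pow_add, Nat.div_add_mod]

/-- The region on which the construction works: `|q z - p| ^ r |s - r z| ^ q ≤ (q + r) ^ (-(q + r))`. -/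
def Good (p s : ℤ) (q r : ℕ) (z : ℂ) : Prop :=
  ‖(q : ℂ) * z - p‖ ^ r * ‖(s : ℂ) - r * z‖ ^ q ≤ (1 / ((r : ℝ) + q)) ^ (r + q)

lemma aeval_U (p : ℤ) (q : ℕ) (z : ℂ) : aeval z (U p q) = (q : ℂ) * z - p := by
  simp [U]; ring

lemma aeval_V (s : ℤ) (r : ℕ) (z : ℂ) : aeval z (V s r) = (s : ℂ) - r * z := by
  simp [V]; ring

lemma norm_u_le {p s : ℤ} {q r : ℕ} (hq : 1 ≤ q) (hdet : s * q - p * r = 1) {ρ : ℝ}
    (hρ : 1 / ((r : ℝ) + q) ≤ ρ) {z : ℂ} (hz : ‖((r : ℂ) + q) * z - (p + s)‖ ≤ ρ) :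
    ‖(q : ℂ) * z - p‖ ≤ 2 * ρ := by
  have hqR : (1 : ℝ) ≤ q := by exact_mod_cast hq
  have hr : (0 : ℝ) ≤ r := Nat.cast_nonneg r
  have hb : (0 : ℝ) < (r : ℝ) + q := by linarith
  have hbC : ((r : ℂ) + q) ≠ 0 := by
    have : (((r : ℝ) + q : ℝ) : ℂ) ≠ 0 := by exact_mod_cast hb.ne'
    simpa using this
  have hd : (s : ℂ) * q - p * r = 1 := by exact_mod_cast hdet
  have h1 : (q : ℂ) * z - p = (1 + q * (((r : ℂ) + q) * z - (p + s))) / ((r : ℂ) + q) := by
    rw [eq_div_iff hbC]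
    linear_combination hd
  rw [h1, norm_div]
  have h2 : ‖(r : ℂ) + q‖ = (r : ℝ) + q := by
    have : ((r : ℂ) + q) = (((r : ℝ) + q : ℝ) : ℂ) := by push_cast; ring
    rw [this, Complex.norm_real, Real.norm_of_nonneg hb.le]
  rw [h2, div_le_iff₀ hb]
  refine (norm_add_le _ _).trans ?_
  rw [norm_one, norm_mul, Complex.norm_natCast]
  have h3 : (q : ℝ) * ‖((r : ℂ) + q) * z - (p + s)‖ ≤ q * ρ := by gcongr
  rw [div_le_iff₀ hb] at hρ
  have hρ0 : 0 < ρ := by
    by_contra h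
    push Not at h
    nlinarith
  nlinarith

lemma norm_M_le {p s : ℤ} {q r : ℕ} (hq : 1 ≤ q) (hdet : s * q - p * r = 1) {ρ : ℝ}
    (hρ : 1 / ((r : ℝ) + q) ≤ ρ) {z : ℂ} (hz : ‖((r : ℂ) + q) * z - (p + s)‖ ≤ ρ)
    (hg : Good p s q r z) (j : ℕ) :
    ‖aeval z (M p s q r j)‖ ≤ 2 ^ (r + q) * ρ ^ j := by
  have hqR : (1 : ℝ) ≤ q := by exact_mod_cast hq
  have hr : (0 : ℝ) ≤ r := Nat.cast_nonneg r
  have hb : (0 : ℝ) < (r : ℝ) + q := by linarith
  have hρ0 : 0 < ρ := lt_of_lt_of_le (by positivity) hρ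
  have hu := norm_u_le hq hdet hρ hz
  rw [M, map_mul, map_pow, map_mul, map_pow, map_pow, map_pow, aeval_U, aeval_V, norm_mul, norm_pow,
    norm_mul, norm_pow, norm_pow, norm_pow]
  have h1 : ‖(q : ℂ) * z - p‖ ^ r * ‖(s : ℂ) - r * z‖ ^ q ≤ ρ ^ (r + q) :=
    hg.trans (pow_le_pow_left₀ (by positivity) hρ _)
  have hlt : j % (r + q) ≤ r + q := (Nat.mod_lt _ (by omega)).le
  calc (‖(q : ℂ) * z - p‖ ^ r * ‖(s : ℂ) - r * z‖ ^ q) ^ (j / (r + q)) *
        ‖(q : ℂ) * z - p‖ ^ (j % (r + q))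
      ≤ (ρ ^ (r + q)) ^ (j / (r + q)) * (2 * ρ) ^ (j % (r + q)) := by
        refine mul_le_mul (pow_le_pow_left₀ (by positivity) h1 _)
          (pow_le_pow_left₀ (norm_nonneg _) hu _) (by positivity) (by positivity)
    _ = 2 ^ (j % (r + q)) * ρ ^ j := by
        rw [mul_pow, ← pow_mul, mul_left_comm, ← pow_add, Nat.div_add_mod]
    _ ≤ 2 ^ (r + q) * ρ ^ j := by
        refine mul_le_mul_of_nonneg_right ?_ (by positivity)
        exact pow_le_pow_right₀ (by norm_num) hlt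

/-- The recursion. -/
theorem exists_poly {p s : ℤ} {q r : ℕ} (hq : 1 ≤ q) (hr : 1 ≤ r) (hdet : s * q - p * r = 1)
    {ρ : ℝ} (hρ : 1 / ((r : ℝ) + q) ≤ ρ) (n : ℕ) :
    ∀ e : ℤ, ∃ P : ℤ[X], P.natDegree ≤ n ∧ P.coeff n = e ∧
      ∀ z : ℂ, ‖((r : ℂ) + q) * z - (p + s)‖ ≤ ρ → Good p s q r z →
        ‖aeval z P‖ ≤ |(e : ℝ)| * (ρ / ((r : ℝ) + q)) ^ n +
          ((r : ℝ) + q) * (2 ^ (r + q) + 1) * n * ρ ^ n := by
  have hqR : (1 : ℝ) ≤ q := by exact_mod_cast hq
  have hrR : (1 : ℝ) ≤ r := by exact_mod_cast hr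
  have hb : (0 : ℝ) < (r : ℝ) + q := by linarith
  have hρ0 : 0 < ρ := lt_of_lt_of_le (by positivity) hρ
  induction n with
  | zero =>
    intro e
    refine ⟨C e, by simp, by simp, ?_⟩
    intro z _ _
    simp
  | succ n ih =>
    intro e
    set b : ℤ := (r : ℤ) + q with hbdef
    have hb0 : 0 < b := by omega
    have hbR : (b : ℝ) = (r : ℝ) + q := by rw [hbdef]; push_cast; ring
    set l : ℤ := lam q r (n + 1) with hl
    obtain ⟨c, e', hc0, hcb, he⟩ : ∃ c e' : ℤ, 0 ≤ c ∧ c < b ∧ e = c * l - b * e' := by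
      obtain ⟨x, y, hxy⟩ := coprime_lam hdet (n + 1)
      rw [← hbdef, ← hl] at hxy
      refine ⟨(y * e) % b, ((y * e) % b * l - e) / b, Int.emod_nonneg _ (by omega),
        Int.emod_lt_of_pos _ hb0, ?_⟩
      have hdvd : b ∣ ((y * e) % b * l - e) := by
        have h1 : (y * e) % b = y * e - b * (y * e / b) := by
          have := Int.emod_add_mul_ediv (y * e) b
          linarith
        rw [h1]
        refine ⟨-(y * e / b) * l - x * e, ?_⟩
        linear_combination e * hxy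
      rw [Int.mul_ediv_cancel' hdvd]
      ring
    obtain ⟨P, hPd, hPc, hP⟩ := ih e'
    let T : ℤ[X] := C (-b) * X + C (p + s)
    have hTd : T.natDegree ≤ 1 := natDegree_linear_le
    have hTc : T.coeff 1 = -b := by
      simp only [T, coeff_add, coeff_C_mul, coeff_X_one, mul_one, coeff_C_succ, add_zero]
    refine ⟨C c * M p s q r (n + 1) + P * T, ?_, ?_, ?_⟩
    · refine (natDegree_add_le _ _).trans (max_le ?_ ?_)
      · exact (natDegree_C_mul_le _ _).trans (M_natDegree _ _ _ _ _)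
      · refine (natDegree_mul_le).trans ?_
        omega
    · have h2 : (P * T).coeff (n + 1) = P.coeff n * T.coeff 1 :=
        coeff_mul_add_eq_of_natDegree_le hPd hTd
      rw [coeff_add, coeff_C_mul, M_coeff, h2, hPc, hTc, he]
      ring
    · intro z hz hg
      have hPz := hP z hz hg
      have hT : ‖aeval z T‖ ≤ ρ := by
        have : aeval z T = -(((r : ℂ) + q) * z - (p + s)) := by
          simp [T, hbdef]
          ring
        rw [this, norm_neg]
        exact hz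
      have hM := norm_M_le hq hdet hρ hz hg (n + 1)
      have hcR0 : (0 : ℝ) ≤ c := by exact_mod_cast hc0
      have hcR1 : (c : ℝ) ≤ b := by exact_mod_cast hcb.le
      have hev : aeval z (C c * M p s q r (n + 1) + P * T) =
          (c : ℂ) * aeval z (M p s q r (n + 1)) + aeval z P * aeval z T := by
        simp
      rw [hev]
      have hlR : |(l : ℝ)| ≤ ((r : ℝ) + q) ^ (n + 1) := abs_lam_le q r (n + 1)
      have he' : |(e' : ℝ)| * b ≤ |(e : ℝ)| + b * ((r : ℝ) + q) ^ (n + 1) := by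
        have h1 : (b : ℝ) * e' = c * l - e := by
          have : b * e' = c * l - e := by linarith
          exact_mod_cast this
        have hbpos : (0 : ℝ) < b := by exact_mod_cast hb0
        have h2 : |(e' : ℝ)| * b = |(c : ℝ) * l - e| := by
          rw [← h1, abs_mul, abs_of_pos hbpos, mul_comm]
        rw [h2]
        have h3 := abs_sub (c * l : ℝ) e
        have h4 : |(c : ℝ) * l| ≤ b * ((r : ℝ) + q) ^ (n + 1) := by
          rw [abs_mul, abs_of_nonneg hcR0]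
          exact mul_le_mul hcR1 hlR (abs_nonneg _) hbpos.le
        linarith
      rw [hbR] at he' hcR1
      have hstep1 : ‖(c : ℂ) * aeval z (M p s q r (n + 1))‖ ≤
          ((r : ℝ) + q) * (2 ^ (r + q) * ρ ^ (n + 1)) := by
        rw [norm_mul, Complex.norm_intCast, abs_of_nonneg hcR0]
        exact mul_le_mul hcR1 hM (norm_nonneg _) hb.le
      have hstep2 : ‖aeval z P * aeval z T‖ ≤
          (|(e' : ℝ)| * (ρ / ((r : ℝ) + q)) ^ n +
          ((r : ℝ) + q) * (2 ^ (r + q) + 1) * n * ρ ^ n) * ρ := by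
        rw [norm_mul]
        exact mul_le_mul hPz hT (norm_nonneg _) (le_trans (norm_nonneg _) hPz)
      refine (norm_add_le _ _).trans ((add_le_add hstep1 hstep2).trans ?_)
      have e1 : |(e' : ℝ)| * (ρ / ((r : ℝ) + q)) ^ n * ρ ≤
          |(e : ℝ)| * (ρ / ((r : ℝ) + q)) ^ (n + 1) + ((r : ℝ) + q) * ρ ^ (n + 1) := by
        have h5 : |(e' : ℝ)| * (ρ / ((r : ℝ) + q)) ^ n * ρ =
            (|(e' : ℝ)| * ((r : ℝ) + q)) * (ρ / ((r : ℝ) + q)) ^ (n + 1) := by
          rw [pow_succ]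
          field_simp
        rw [h5]
        calc (|(e' : ℝ)| * ((r : ℝ) + q)) * (ρ / ((r : ℝ) + q)) ^ (n + 1)
            ≤ (|(e : ℝ)| + ((r : ℝ) + q) * ((r : ℝ) + q) ^ (n + 1)) *
              (ρ / ((r : ℝ) + q)) ^ (n + 1) :=
              mul_le_mul_of_nonneg_right he' (by positivity)
          _ = _ := by
              rw [add_mul, div_pow]
              congr 1
              field_simp
      push_cast
      have e2 : ((r : ℝ) + q) * (2 ^ (r + q) + 1) * n * ρ ^ n * ρ =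
          ((r : ℝ) + q) * (2 ^ (r + q) + 1) * n * ρ ^ (n + 1) := by
        rw [pow_succ]; ring
      nlinarith [e1, e2]

/-- Small monic integer polynomials. -/
theorem exists_monic {p s : ℤ} {q r : ℕ} (hq : 1 ≤ q) (hr : 1 ≤ r) (hdet : s * q - p * r = 1)
    {ρ : ℝ} (hρ : 1 / ((r : ℝ) + q) ≤ ρ) (n : ℕ) :
    ∃ P : ℤ[X], P.Monic ∧ P.natDegree = n ∧
      ∀ z : ℂ, ‖((r : ℂ) + q) * z - (p + s)‖ ≤ ρ → Good p s q r z →
        ‖aeval z P‖ ≤ (1 + ((r : ℝ) + q) * (2 ^ (r + q) + 1) * n) * ρ ^ n := by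
  obtain ⟨P, hPd, hPc, hP⟩ := exists_poly hq hr hdet hρ n 1
  have hqR : (1 : ℝ) ≤ q := by exact_mod_cast hq
  have hrR : (1 : ℝ) ≤ r := by exact_mod_cast hr
  have hb : (0 : ℝ) < (r : ℝ) + q := by linarith
  have hρ0 : 0 < ρ := lt_of_lt_of_le (by positivity) hρ
  have hmon : P.Monic := monic_of_natDegree_le_of_coeff_eq_one n hPd hPc
  refine ⟨P, hmon, le_antisymm hPd (le_natDegree_of_ne_zero ?_), fun z hz hg => ?_⟩
  · rw [hPc]; exact one_ne_zero
  · refine (hP z hz hg).trans ?_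
    rw [Int.cast_one, abs_one, one_mul]
    have hsplit : (1 + ((r : ℝ) + q) * (2 ^ (r + q) + 1) * n) * ρ ^ n =
        ρ ^ n + ((r : ℝ) + q) * (2 ^ (r + q) + 1) * n * ρ ^ n := by ring
    rw [hsplit]
    refine add_le_add ?_ le_rfl
    refine pow_le_pow_left₀ (by positivity) ?_ n
    rw [div_le_iff₀ hb]
    nlinarith

end Pool.Agent.Y840.FI
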