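import Pool.Agent.Y840.FI.Core

/-!
# Limits: the monic integer transfinite diameter of sets near a reduced fraction
-/

set_option autoImplicit false

open Polynomial Filter Topology
open Pool.Agent.Results.MP_1bffc6_nt.FareyFull

namespace Pool.Agent.Y840.FI

lemma bdd_image {E : Set ℂ} (hE : Bornology.IsBounded E) (P : ℤ[X]) :
    BddAbove ((fun z : ℂ => ‖aeval z P‖) '' E) := by
  have hcont : Continuous (fun z : ℂ => ‖aeval z P‖) := (P.continuous_aeval).norm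
  exact (hE.isCompact_closure.image hcont).bddAbove.mono (Set.image_mono subset_closure)

lemma maxAbs_nonneg (E : Set ℂ) (P : ℤ[X]) : 0 ≤ maxAbs E P := by
  apply Real.sSup_nonneg
  rintro _ ⟨z, _, rfl⟩
  exact norm_nonneg _

/-- Lower bound: a reduced non-integer fraction `c / d` in `E` forces `m_n ≥ d ^ (-n)`. -/
lemma lower {E : Set ℂ} (hE : Bornology.IsBounded E) {c d : ℤ} (hd : 2 ≤ d) (hco : IsCoprime c d)
    (hmem : (c : ℂ) / d ∈ E) (n : ℕ) : (1 / (d : ℝ)) ^ n ≤ mMonic E n := by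
  refine le_csInf (mMonic_nonempty _ n) ?_
  rintro r ⟨P, hP, rfl, rfl⟩
  refine (endpoint_lower c d hd hco P hP).trans ?_
  rw [← aeval_ofReal]
  have : (((c : ℝ) / d : ℝ) : ℂ) = (c : ℂ) / d := by push_cast; ring
  rw [this]
  exact le_csSup (bdd_image hE P) ⟨_, hmem, rfl⟩

/-- Upper bound. -/
lemma upper {p s : ℤ} {q r : ℕ} (hq : 1 ≤ q) (hr : 1 ≤ r) (hdet : s * q - p * r = 1)
    {ρ : ℝ} (hρ : 1 / ((r : ℝ) + q) ≤ ρ) {E : Set ℂ} (hne : E.Nonempty)
    (h1 : ∀ z ∈ E, ‖((r : ℂ) + q) * z - (p + s)‖ ≤ ρ) (h2 : ∀ z ∈ E, Good p s q r z) (n : ℕ) :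
    mMonic E n ≤ (1 + ((r : ℝ) + q) * (2 ^ (r + q) + 1) * n) * ρ ^ n := by
  obtain ⟨P, hP, hn, hbd⟩ := exists_monic hq hr hdet hρ n
  refine (csInf_le (mMonic_bddBelow _ n) ⟨P, hP, hn, rfl⟩).trans ?_
  refine csSup_le (hne.image _) ?_
  rintro _ ⟨z, hz, rfl⟩
  exact hbd z (h1 z hz) (h2 z hz)

lemma bounded_of {p s : ℤ} {q r : ℕ} (hq : 1 ≤ q) {ρ : ℝ} {E : Set ℂ}
    (h1 : ∀ z ∈ E, ‖((r : ℂ) + q) * z - (p + s)‖ ≤ ρ) : Bornology.IsBounded E := by
  have hqR : (1 : ℝ) ≤ q := by exact_mod_cast hq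
  have hr : (0 : ℝ) ≤ r := Nat.cast_nonneg r
  rw [isBounded_iff_forall_norm_le]
  refine ⟨ρ + ‖((p : ℂ) + s)‖, fun z hz => ?_⟩
  have h2 : ‖((r : ℂ) + q) * z‖ ≤ ρ + ‖((p : ℂ) + s)‖ := by
    have := norm_add_le (((r : ℂ) + q) * z - (p + s)) ((p : ℂ) + s)
    rw [sub_add_cancel] at this
    exact this.trans (by linarith [h1 z hz])
  have h3 : ‖(r : ℂ) + q‖ = (r : ℝ) + q := by
    have : ((r : ℂ) + q) = (((r : ℝ) + q : ℝ) : ℂ) := by push_cast; ring
    rw [this, Complex.norm_real, Real.norm_of_nonneg (by linarith)]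
  rw [norm_mul, h3] at h2
  have h4 := norm_nonneg z
  nlinarith

/-- The general theorem: `τ_M(E) = 1 / d`. -/
theorem general {p s : ℤ} {q r : ℕ} (hq : 1 ≤ q) (hr : 1 ≤ r) (hdet : s * q - p * r = 1)
    {c d : ℤ} (hd : 2 ≤ d) (hco : IsCoprime c d) (hdb : (d : ℝ) ≤ (r : ℝ) + q) {E : Set ℂ}
    (hmem : (c : ℂ) / d ∈ E)
    (h1 : ∀ z ∈ E, ‖((r : ℂ) + q) * z - (p + s)‖ ≤ 1 / (d : ℝ)) (h2 : ∀ z ∈ E, Good p s q r z) :
    Tendsto (fun n : ℕ => (mMonic E n) ^ ((1 : ℝ) / n)) atTop (𝓝 (1 / (d : ℝ))) ∧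
      tauM E = 1 / (d : ℝ) := by
  have hdR : (2 : ℝ) ≤ d := by exact_mod_cast hd
  have hrR : (0 : ℝ) ≤ r := Nat.cast_nonneg r
  have hqR : (0 : ℝ) ≤ q := Nat.cast_nonneg q
  have hbd := bounded_of hq h1
  have hρ : 1 / ((r : ℝ) + q) ≤ 1 / (d : ℝ) := one_div_le_one_div_of_le (by linarith) hdb
  have main : Tendsto (fun n : ℕ => (mMonic E n) ^ ((1 : ℝ) / n)) atTop (𝓝 (1 / (d : ℝ))) := by
    refine tendsto_root _ _ (((r : ℝ) + q) * (2 ^ (r + q) + 1) / 2) (by positivity) (by positivity)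
      (fun n => lower hbd hd hco hmem n) (fun n => ?_)
    refine (upper hq hr hdet hρ ⟨_, hmem⟩ h1 h2 n).trans (le_of_eq ?_)
    ring
  exact ⟨main, main.limUnder_eq⟩

/-- Submultiplicativity. -/
lemma mMonic_mul {E : Set ℂ} (hE : Bornology.IsBounded E) {t : ℝ} (ht : 0 < t)
    (hlow : ∀ n, t ^ n ≤ mMonic E n) (k l : ℕ) :
    mMonic E (k + l) ≤ mMonic E k * mMonic E l := by
  have hpos : ∀ n, 0 < mMonic E n := fun n => lt_of_lt_of_le (pow_pos ht n) (hlow n)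
  have key : ∀ P Q : ℤ[X], P.Monic → P.natDegree = k → Q.Monic → Q.natDegree = l →
      mMonic E (k + l) ≤ maxAbs E P * maxAbs E Q := by
    intro P Q hP hk hQ hl
    refine (csInf_le (mMonic_bddBelow _ _) ⟨P * Q, hP.mul hQ, ?_, rfl⟩).trans ?_
    · rw [hP.natDegree_mul hQ, hk, hl]
    · apply Real.sSup_le
      · rintro _ ⟨z, hz, rfl⟩
        simp only [map_mul, norm_mul]
        exact mul_le_mul (le_csSup (bdd_image hE P) ⟨z, hz, rfl⟩)
          (le_csSup (bdd_image hE Q) ⟨z, hz, rfl⟩) (norm_nonneg _) (maxAbs_nonneg _ _)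
      · exact mul_nonneg (maxAbs_nonneg _ _) (maxAbs_nonneg _ _)
  have step1 : ∀ P : ℤ[X], P.Monic → P.natDegree = k →
      mMonic E (k + l) ≤ maxAbs E P * mMonic E l := by
    intro P hP hk
    have hPpos : 0 < maxAbs E P :=
      lt_of_lt_of_le (hpos k) (csInf_le (mMonic_bddBelow _ _) ⟨P, hP, hk, rfl⟩)
    rw [← div_le_iff₀' hPpos]
    refine le_csInf (mMonic_nonempty _ l) ?_
    rintro x ⟨Q, hQ, hl, rfl⟩
    rw [div_le_iff₀' hPpos]
    exact key P Q hP hk hQ hl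
  rw [← div_le_iff₀ (hpos l)]
  refine le_csInf (mMonic_nonempty _ k) ?_
  rintro x ⟨P, hP, hk, rfl⟩
  rw [div_le_iff₀ (hpos l)]
  exact step1 P hP hk

/-- The limit exists. -/
theorem tendsto_tauM {E : Set ℂ} (hE : Bornology.IsBounded E) {t : ℝ} (ht : 0 < t)
    (hlow : ∀ n, t ^ n ≤ mMonic E n) :
    Tendsto (fun n : ℕ => (mMonic E n) ^ ((1 : ℝ) / n)) atTop (𝓝 (tauM E)) := by
  have hpos : ∀ n, 0 < mMonic E n := fun n => lt_of_lt_of_le (pow_pos ht n) (hlow n)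
  have hsub : Subadditive (fun n : ℕ => Real.log (mMonic E n)) := by
    intro k l
    rw [← Real.log_mul (hpos k).ne' (hpos l).ne']
    exact Real.log_le_log (hpos _) (mMonic_mul hE ht hlow k l)
  have hbdd : BddBelow (Set.range fun n : ℕ => Real.log (mMonic E n) / n) := by
    refine ⟨min 0 (Real.log t), ?_⟩
    rintro _ ⟨n, rfl⟩
    rcases Nat.eq_zero_or_pos n with rfl | hn
    · simp
    · have hn' : (0 : ℝ) < n := by exact_mod_cast hn
      refine (min_le_right _ _).trans ?_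
      show Real.log t ≤ Real.log (mMonic E n) / n
      rw [le_div_iff₀ hn']
      have h := Real.log_le_log (pow_pos ht n) (hlow n)
      rw [Real.log_pow] at h
      linarith
  have hlim := hsub.tendsto_lim hbdd
  have h2 : Tendsto (fun n : ℕ => (mMonic E n) ^ ((1 : ℝ) / n)) atTop (𝓝 (Real.exp hsub.lim)) := by
    have h3 := (Real.continuous_exp.tendsto hsub.lim).comp hlim
    refine h3.congr ?_
    intro n
    show Real.exp (Real.log (mMonic E n) / n) = _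
    rw [Real.rpow_def_of_pos (hpos n)]
    congr 1
    ring
  have h4 : tauM E = Real.exp hsub.lim := h2.limUnder_eq
  rw [h4]
  exact h2

lemma le_tauM {E : Set ℂ} (hE : Bornology.IsBounded E) {t : ℝ} (ht : 0 < t)
    (hlow : ∀ n, t ^ n ≤ mMonic E n) : t ≤ tauM E := by
  refine ge_of_tendsto (tendsto_tauM hE ht hlow) ?_
  filter_upwards [eventually_ge_atTop 1] with n hn
  have h1 : (t ^ n) ^ ((1 : ℝ) / n) = t := by
    rw [one_div]
    exact Real.pow_rpow_inv_natCast ht.le (by omega)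
  calc t = (t ^ n) ^ ((1 : ℝ) / n) := h1.symm
    _ ≤ (mMonic E n) ^ ((1 : ℝ) / n) := Real.rpow_le_rpow (by positivity) (hlow n) (by positivity)

lemma tauM_le {E : Set ℂ} (hE : Bornology.IsBounded E) {t : ℝ} (ht : 0 < t)
    (hlow : ∀ n, t ^ n ≤ mMonic E n) {ρ K : ℝ} (hρ : 0 < ρ) (hK : 0 ≤ K)
    (hup : ∀ n : ℕ, mMonic E n ≤ (1 + K * n) * ρ ^ n) : tauM E ≤ ρ := by
  have h1 : Tendsto (fun n : ℕ => ((1 + K * n) * ρ ^ n) ^ ((1 : ℝ) / n)) atTop (𝓝 ρ) := by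
    refine tendsto_root _ _ (K / 2) hρ (by positivity) (fun n => ?_) (fun n => le_of_eq (by ring))
    have h0 : 0 ≤ K * (n : ℝ) := by positivity
    have h2 : 0 < ρ ^ n := pow_pos hρ n
    nlinarith
  refine le_of_tendsto_of_tendsto' (tendsto_tauM hE ht hlow) h1 (fun n => ?_)
  exact Real.rpow_le_rpow (le_trans (by positivity) (hlow n)) (hup n) (by positivity)

/-- Weighted AM-GM. -/
lemma amgm {q r : ℕ} (hq : 1 ≤ q) (hr : 1 ≤ r) {x y : ℝ} (hx : 0 ≤ x) (hy : 0 ≤ y)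
    (hxy : r * x + q * y = 1) : x ^ r * y ^ q ≤ (1 / ((r : ℝ) + q)) ^ (r + q) := by
  have hqR : (1 : ℝ) ≤ q := by exact_mod_cast hq
  have hrR : (1 : ℝ) ≤ r := by exact_mod_cast hr
  have hb : (0 : ℝ) < (r : ℝ) + q := by linarith
  have h := Real.geom_mean_le_arith_mean2_weighted (w₁ := (r : ℝ) / ((r : ℝ) + q))
    (w₂ := (q : ℝ) / ((r : ℝ) + q)) (p₁ := x) (p₂ := y) (by positivity) (by positivity) hx hy
    (by field_simp)
  have h2 : (r : ℝ) / ((r : ℝ) + q) * x + (q : ℝ) / ((r : ℝ) + q) * y = 1 / ((r : ℝ) + q) := by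
    rw [← hxy]; field_simp
  rw [h2] at h
  have h3 := pow_le_pow_left₀ (by positivity) h (r + q)
  refine le_trans (le_of_eq ?_) h3
  rw [mul_pow, ← Real.rpow_natCast (x ^ ((r : ℝ) / ((r : ℝ) + q))),
    ← Real.rpow_natCast (y ^ ((q : ℝ) / ((r : ℝ) + q))), ← Real.rpow_mul hx, ← Real.rpow_mul hy]
  have e1 : (r : ℝ) / ((r : ℝ) + q) * ((r + q : ℕ) : ℝ) = (r : ℝ) := by
    push_cast; field_simp
  have e2 : (q : ℝ) / ((r : ℝ) + q) * ((r + q : ℕ) : ℝ) = (q : ℝ) := by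
    push_cast; field_simp
  rw [e1, e2, Real.rpow_natCast, Real.rpow_natCast]

/-- Real points between the parents are good. -/
lemma good_real {p s : ℤ} {q r : ℕ} (hq : 1 ≤ q) (hr : 1 ≤ r) (hdet : s * q - p * r = 1) {x : ℝ}
    (h1 : (p : ℝ) ≤ q * x) (h2 : (r : ℝ) * x ≤ s) : Good p s q r (x : ℂ) := by
  have e1 : ‖(q : ℂ) * x - p‖ = q * x - p := by
    have : ((q : ℂ) * x - p) = ((q * x - p : ℝ) : ℂ) := by push_cast; ring
    rw [this, Complex.norm_real, Real.norm_of_nonneg (by linarith)]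
  have e2 : ‖(s : ℂ) - r * x‖ = s - r * x := by
    have : ((s : ℂ) - r * x) = ((s - r * x : ℝ) : ℂ) := by push_cast; ring
    rw [this, Complex.norm_real, Real.norm_of_nonneg (by linarith)]
  rw [Good, e1, e2]
  have hd : (s : ℝ) * q - p * r = 1 := by exact_mod_cast hdet
  exact amgm hq hr (by linarith) (by linarith) (by linear_combination hd)

lemma norm_T_real {p s : ℤ} {q r : ℕ} (x : ℝ) :
    ‖((r : ℂ) + q) * (x : ℂ) - (p + s)‖ = |((r : ℝ) + q) * x - (p + s)| := by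
  have : (((r : ℂ) + q) * (x : ℂ) - (p + s)) = ((((r : ℝ) + q) * x - (p + s) : ℝ) : ℂ) := by
    push_cast; ring
  rw [this, Complex.norm_real, Real.norm_eq_abs]

/-- The Farey parents of a reduced fraction. -/
lemma parents {a b : ℤ} (hb : 2 ≤ b) (hco : IsCoprime a b) :
    ∃ (p s : ℤ) (q r : ℕ), 1 ≤ q ∧ 1 ≤ r ∧ s * q - p * r = 1 ∧ a = p + s ∧ b = (r : ℤ) + q := by
  obtain ⟨x, y, hxy⟩ := hco
  have hb0 : (0 : ℤ) < b := by omega
  have h1 : 0 ≤ x % b := Int.emod_nonneg _ (by omega)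
  have h2 : x % b < b := Int.emod_lt_of_pos _ hb0
  have h3 : x = b * (x / b) + x % b := by
    have := Int.emod_add_mul_ediv x b
    linarith
  have h4 : x % b ≠ 0 := by
    intro h0
    rw [h0, add_zero] at h3
    have h5 : b ∣ 1 := ⟨(x / b) * a + y, by
      calc (1 : ℤ) = x * a + y * b := hxy.symm
        _ = (b * (x / b)) * a + y * b := by rw [← h3]
        _ = b * ((x / b) * a + y) := by ring⟩
    have := Int.le_of_dvd one_pos h5
    omega
  -- a * (x % b) - b * p = 1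
  obtain ⟨q, hq⟩ : ∃ q : ℕ, (q : ℤ) = x % b := ⟨(x % b).toNat, Int.toNat_of_nonneg h1⟩
  obtain ⟨r, hr⟩ : ∃ r : ℕ, (r : ℤ) = b - x % b := ⟨(b - x % b).toNat, Int.toNat_of_nonneg (by omega)⟩
  set p : ℤ := -(y + a * (x / b)) with hp
  have h6 : a * (x % b) - b * p = 1 := by
    rw [hp]
    have : x % b = x - b * (x / b) := by linarith
    rw [this]
    linear_combination hxy
  refine ⟨p, a - p, q, r, by omega, by omega, ?_, by ring, by omega⟩
  rw [hq, hr]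
  linear_combination h6

end Pool.Agent.Y840.FI
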